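import Pool.Agent.H75.OM.TC

/-!
# Large gates
-/

set_option autoImplicit false

namespace Pool.Agent.H59.OMN

open Pool.Agent.H75.OM

theorem cmg_congr {n s s' : ℕ} {f g : List Bool → Bool} (h : Cm n s f) (hs : s ≤ s')
    (hfg : ∀ x : List Bool, x.length = n → f x = g x) : Cm n s' g := by
  obtain ⟨C, h1, h2, h3, h4⟩ := h
  exact ⟨C, h1, h2, h3.trans hs, fun x hx => (h4 x hx).trans (hfg x hx)⟩

theorem cmg_step (h1 : T_CMC) (op : Bool → Bool → Bool)
    (hop : Cm 2 5 fun x => op (x.getD 0 false) (x.getD 1 false))
    (hpr : ∀ n i : ℕ, Cm n 2 fun x => x.getD i false) {m s j : ℕ} {F G : List Bool → Bool}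
    (hF : Cm m s F) (hG : ∀ x : List Bool, x.length = m → op (F x) (x.getD j false) = G x) :
    Cm m (s + 7) G := by
  have h := h1 m 2 5 (fun i => if i = 0 then s else 2)
    (fun x => op (x.getD 0 false) (x.getD 1 false))
    (fun i => if i = 0 then F else fun x => x.getD j false) hop (by
      intro i hi
      by_cases h0 : i = 0
      · simp only [h0, if_true]; exact hF
      · simp only [h0, if_false]; exact hpr m j)
  refine cmg_congr h ?_ ?_
  · simp [Finset.sum_range_succ]; omega
  · intro x hx
    rw [← hG x hx]
    simp [List.range_succ]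

theorem cmg_iter (h1 : T_CMC) (op : Bool → Bool → Bool)
    (hop : Cm 2 5 fun x => op (x.getD 0 false) (x.getD 1 false))
    (hpr : ∀ n i : ℕ, Cm n 2 fun x => x.getD i false) (b : Bool) (hb : ∀ n, Cm n 2 fun _ => b)
    (m : ℕ) (G : ℕ → List Bool → Bool) (h0 : ∀ x : List Bool, x.length = m → b = G 0 x)
    (hs : ∀ j < m, ∀ x : List Bool, x.length = m → op (G j x) (x.getD j false) = G (j + 1) x) :
    ∀ j ≤ m, Cm m (7 * j + 2) (G j) := by
  intro j
  induction j with
  | zero => intro _; exact cmg_congr (hb m) le_rfl h0
  | succ j ih =>
    intro hj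
    have := cmg_step h1 op hop hpr (ih (by omega)) (hs j (by omega))
    exact cmg_congr this (by omega) fun _ _ => rfl

theorem cmg_take {x : List Bool} {j : ℕ} (hj : j < x.length) :
    x.take (j + 1) = x.take j ++ [x.getD j false] := by
  rw [List.take_succ_eq_append_getElem hj]
  simp [List.getD_eq_getElem?_getD, hj]

theorem pf_CMG (h1 : T_CMC) (h2 : T_CMB) : T_CMG := by
  obtain ⟨hpr, hcon, -, hand, hor, hxor, -⟩ := h2
  intro m
  refine ⟨?_, ?_, ?_⟩
  · have h := cmg_iter h1 (fun a b => a && b) hand hpr true (fun n => hcon n true) m
      (fun j x => (x.take j).all id) (by intro x _; simp) (by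
        intro j hj x hx
        rw [cmg_take (by omega : j < x.length), List.all_append]
        simp) m le_rfl
    refine cmg_congr h (by omega) ?_
    intro x hx
    simp only [List.take_of_length_le (le_of_eq hx)]
  · have h := cmg_iter h1 (fun a b => a || b) hor hpr false (fun n => hcon n false) m
      (fun j x => (x.take j).any id) (by intro x _; simp) (by
        intro j hj x hx
        rw [cmg_take (by omega : j < x.length), List.any_append]
        simp) m le_rfl
    refine cmg_congr h (by omega) ?_
    intro x hx
    simp only [List.take_of_length_le (le_of_eq hx)]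
  · have h := cmg_iter h1 (fun a b => xor a b) hxor hpr false (fun n => hcon n false) m
      (fun j x => decide (Odd ((x.take j).count true))) (by intro x _; simp) (by
        intro j hj x hx
        rw [cmg_take (by omega : j < x.length), List.count_append]
        cases hb : x.getD j false
        · simp
        · rcases Nat.even_or_odd (List.count true (List.take j x)) with he | ho
          · simp [Nat.odd_add_one, he, Nat.not_odd_iff_even.2 he]
          · simp [Nat.odd_add_one, ho, Nat.not_even_iff_odd.2 ho]) m le_rfl
    refine cmg_congr h (by omega) ?_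
    intro x hx
    simp only [List.take_of_length_le (le_of_eq hx)]

end Pool.Agent.H59.OMN
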