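import Pool.Agent.H75.OM.TD

/-!
# The oracle has a small description
-/

set_option autoImplicit false

namespace Pool.Agent.H59.OMN

open Finset Pool.Agent.H6.NB Pool.Agent.H70.OQ Pool.Agent.H70.EH Pool.Agent.H70.EI
open Pool.Agent.H78.XQ Pool.Agent.H75.OM

theorem spc_strs : ∀ m : ℕ, ∃ A : Finset (List Bool), A.card + 1 ≤ 2 ^ (m + 1) ∧
    ∀ w : List Bool, w.length ≤ m → w ∈ A
  | 0 => ⟨{[]}, by simp, fun w hw => by simpa using hw⟩
  | m + 1 => by
    obtain ⟨A, h1, h2⟩ := spc_strs m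
    refine ⟨{[]} ∪ (A.image (List.cons true) ∪ A.image (List.cons false)), ?_, ?_⟩
    · have h3 := Finset.card_union_le ({[]} : Finset (List Bool))
        (A.image (List.cons true) ∪ A.image (List.cons false))
      have h4 := Finset.card_union_le (A.image (List.cons true)) (A.image (List.cons false))
      have h5 := Finset.card_image_le (s := A) (f := List.cons true)
      have h6 := Finset.card_image_le (s := A) (f := List.cons false)
      have h7 : ({[]} : Finset (List Bool)).card = 1 := Finset.card_singleton _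
      have h8 : 2 ^ (m + 1 + 1) = 2 * 2 ^ (m + 1) := by ring
      omega
    · intro w hw
      cases w with
      | nil => simp
      | cons b w =>
        have h3 := h2 w (by simpa using hw)
        cases b <;> simp [h3]

theorem spc_find (l : List (List Bool)) (f : List Bool → Bool) (w : List Bool)
    (q : List Bool × Bool → Bool) (hq : ∀ c, q c = true ↔ c.1 = w) :
    (w ∈ l → (l.map fun v => (v, f v)).find? q = some (w, f w)) ∧
    (w ∉ l → (l.map fun v => (v, f v)).find? q = none) := by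
  constructor
  · intro hw
    cases h : (l.map fun v => (v, f v)).find? q with
    | none =>
      exact absurd ((hq (w, f w)).2 rfl)
        (by simpa using List.find?_eq_none.1 h (w, f w) (List.mem_map.2 ⟨w, hw, rfl⟩))
    | some c =>
      have h1 := (hq c).1 (List.find?_some h)
      obtain ⟨v, -, rfl⟩ := List.mem_map.1 (List.mem_of_find?_eq_some h)
      simp only at h1
      rw [h1]
  · intro hw
    refine List.find?_eq_none.2 fun c hc hqc => hw ?_
    obtain ⟨v, hv, rfl⟩ := List.mem_map.1 hc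
    exact (hq _).1 hqc ▸ hv

theorem spc_code {V : ℕ → ATM} {p : ℕ × List Bool} {w : List Bool} (h : BPos V p w) :
    ∃ y i, w = code (hm V p) y i := by
  rcases h with ⟨u, v, b, h⟩ | ⟨z, h⟩
  · exact ⟨_, _, h⟩
  · exact ⟨_, _, h⟩

theorem spc_uniq (h1 : T_HMX) (h2 : T_COD) {V : ℕ → ATM} {p q : ℕ × List Bool}
    {w : List Bool} {y : List Bool} {i : ℕ} (h : w = code (hm V p) y i) (h' : BPos V q w) :
    q = p := by
  obtain ⟨y', i', h3⟩ := spc_code h'
  exact h1.1 V q p (h2.1 _ _ _ _ _ _ (h3.symm.trans h)).1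

theorem spc_true (h1 : T_HMX) {V : ℕ → ATM} {p : ℕ × List Bool} {w w' : List Bool}
    (h : BPos V p w) (hw : w = false :: w') : False := by
  obtain ⟨y, i, rfl⟩ := spc_code h
  obtain ⟨w1, h3⟩ := h1.2.1 V p [] [] false
  cases hs : hm V p with
  | nil =>
    rw [hs] at h3
    simp [pos, code, dbl] at h3
  | cons b s =>
    rw [hs] at hw
    simp [code, dbl] at hw

theorem spc_omg {l l' : ℕ} (h : l ≤ l') : omg l ≤ omg l' := by
  unfold omg
  gcongr

theorem spc_wln (s : List Bool) : wln s = omg s.length := by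
  simp only [wln, rns, qs, omg]
  ring

theorem spc_cube {κ σ L : ℕ} (h : κ ≤ σ) (hσ : 4 ≤ σ) (hL : 32 * σ ^ 3 ≤ L) :
    16 * (κ + 1) ^ 3 ≤ L := by
  obtain ⟨t, rfl⟩ : ∃ t, σ = t + 4 := ⟨σ - 4, by omega⟩
  have h1 : (κ + 1) ^ 3 ≤ (t + 4 + 1) ^ 3 := Nat.pow_le_pow_left (by omega) 3
  have h2 : 2 * (t + 4) ^ 3 = (t + 4 + 1) ^ 3 + (t ^ 3 + 9 * t ^ 2 + 21 * t + 3) := by ring
  omega

theorem spc_some {α : Type} (l : List α) (q : α → Bool) (c : α) (hc : c ∈ l) (hq : q c = true)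
    (h : ∀ c' ∈ l, q c' = true → c' = c) : l.find? q = some c := by
  cases hf : l.find? q with
  | none => exact absurd hq (List.find?_eq_none.1 hf c hc)
  | some c' => rw [h c' (List.mem_of_find?_eq_some hf) (List.find?_some hf)]

section

variable {V : ℕ → ATM} {W : ℕ → Hm} {ρ : ℕ → ℕ} {E : Finset Ix}
  {O : (∀ i : {a // a ∈ E}, Cx V W ρ i.1) → (List Bool → Bool) → List Bool → Bool}

theorem spc_cor_pos (Lo : Ix → Prop) (κ : Ix → Bool)
    (P : ∀ i : {a // a ∈ E}, Cx V W ρ i.1) (y : List Bool → ℕ → Bool)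
    {p : ℕ × List Bool} (hp : Sum.inl p ∈ E) (h : Lo (.inl p)) :
    cor V W ρ E Lo κ P y ⟨.inl p, hp⟩ = (((P ⟨.inl p, hp⟩ : CP V p).1, crs (wln (hm V p))
        (wt0 (qs (hm V p)) (rns (hm V p)) (wln (hm V p)) (κ (.inl p)) (P ⟨.inl p, hp⟩ : CP V p).1)
        fun z i => y (wps (hm V p) (List.ofFn z)) (i + 1)) : CP V p) := if_pos h

theorem spc_cor_neg (Lo : Ix → Prop) (κ : Ix → Bool)
    (P : ∀ i : {a // a ∈ E}, Cx V W ρ i.1) (y : List Bool → ℕ → Bool)
    {p : ℕ × List Bool} (hp : Sum.inl p ∈ E) (h : ¬ Lo (.inl p)) :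
    cor V W ρ E Lo κ P y ⟨.inl p, hp⟩ = P ⟨.inl p, hp⟩ := if_neg h

/-- The values at the copies. -/
theorem spc_blk (hO : IsY V W ρ E O) (Lo : Ix → Prop) (κ : Ix → Bool)
    (P : ∀ i : {a // a ∈ E}, Cx V W ρ i.1) (y : List Bool → ℕ → Bool) (g g0 : List Bool → Bool)
    {p : ℕ × List Bool} (hp : Sum.inl p ∈ E) (u : Fin (2 * (hm V p).length) → Bool)
    (v : Fin (qs (hm V p)) → Bool) (b : Bool) :
    O (cor V W ρ E Lo κ P y) g (pos (hm V p) (List.ofFn u) (List.ofFn v) b) =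
      O P g0 (pos (hm V p) (List.ofFn u) (List.ofFn v) b) := by
  have h1 := congrFun (congrFun ((hO.isx g).blk (cor V W ρ E Lo κ P y) p hp) u) (b, v)
  have h2 := congrFun (congrFun ((hO.isx g0).blk P p hp) u) (b, v)
  refine (h1.trans ?_).trans h2.symm
  have h3 : (cor V W ρ E Lo κ P y ⟨.inl p, hp⟩ : CP V p).1 = (P ⟨.inl p, hp⟩ : CP V p).1 := by
    by_cases h : Lo (.inl p)
    · rw [spc_cor_pos Lo κ P y hp h]
    · rw [spc_cor_neg Lo κ P y hp h]
  rw [h3]

/-- The values at the tables. -/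
theorem spc_tab (hO : IsY V W ρ E O) (Lo : Ix → Prop) (κ : Ix → Bool)
    (P : ∀ i : {a // a ∈ E}, Cx V W ρ i.1) (y : List Bool → ℕ → Bool) (g g0 : List Bool → Bool)
    {b : ℕ} (hb : Sum.inr b ∈ E) (x : Nn (2 ^ ρ b) ((W b).1 + 1)) :
    O (cor V W ρ E Lo κ P y) g (false :: nstr (2 ^ ρ b) ((W b).1 + 1) x) =
      O P g0 (false :: nstr (2 ^ ρ b) ((W b).1 + 1) x) :=
  ((hO.isx g).tab (cor V W ρ E Lo κ P y) b hb x).trans ((hO.isx g0).tab P b hb x).symm

/-- The values at the correction strings. -/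
theorem spc_crs (hO : IsY V W ρ E O) (Lo : Ix → Prop) (κ : Ix → Bool)
    (P : ∀ i : {a // a ∈ E}, Cx V W ρ i.1) (y : List Bool → ℕ → Bool) (g : List Bool → Bool)
    {p : ℕ × List Bool} (hp : Sum.inl p ∈ E) (hLo : Lo (.inl p)) (z : Fin (wln (hm V p)) → Bool) :
    O (cor V W ρ E Lo κ P y) g (wps (hm V p) (List.ofFn z)) = thr (wln (hm V p))
      (wt0 (qs (hm V p)) (rns (hm V p)) (wln (hm V p)) (κ (.inl p)) (P ⟨.inl p, hp⟩ : CP V p).1)
      fun i => y (wps (hm V p) (List.ofFn z)) (i + 1) := by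
  have h1 := congrFun ((hO.isx g).cor (cor V W ρ E Lo κ P y) p hp) z
  refine h1.trans ?_
  have h3 : (cor V W ρ E Lo κ P y ⟨.inl p, hp⟩ : CP V p).2 = crs (wln (hm V p))
      (wt0 (qs (hm V p)) (rns (hm V p)) (wln (hm V p)) (κ (.inl p)) (P ⟨.inl p, hp⟩ : CP V p).1)
      fun z i => y (wps (hm V p) (List.ofFn z)) (i + 1) := by
    rw [spc_cor_pos Lo κ P y hp hLo]
  rw [h3]
  rfl

end

open Classical in
theorem pf_SPC (h1 : Pool.Agent.H70.EI.T_HMX) (h2 : Pool.Agent.H6.NB.T_COD)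
    (h3 : Pool.Agent.H70.OQ.T_NST) (h4 : Pool.Agent.H70.EI.T_CNT) : Pool.Agent.H75.OM.T_SPC := by
  intro e s₀ _ V W ρ R hSep E O hO a Lo κ P hLo
  have hs1 := hSep.s1 a
  have hs3 := hSep.s3 a
  have htiny := hSep.tiny a
  have hns := hSep.ns a
  have hhi := (hSep.hi a).2
  obtain ⟨s, hs⟩ : ∃ s, s = (R a).s := ⟨_, rfl⟩
  obtain ⟨σ, hσ⟩ : ∃ σ, σ = (R a).σ := ⟨_, rfl⟩
  obtain ⟨K, hK⟩ : ∃ K, K = (R a).k := ⟨_, rfl⟩
  obtain ⟨n, hn⟩ : ∃ n, n = (R a).n := ⟨_, rfl⟩
  rw [← hK, ← hσ] at hs1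
  rw [← hK, ← hσ, ← hs] at hs3
  rw [← hn] at htiny
  rw [← hn, ← hs] at hns
  rw [← hs] at hhi
  rw [← hσ] at hLo
  rw [← hK, ← hs]
  obtain ⟨Λ, hΛ⟩ : ∃ Λ, Λ = lam K s := ⟨_, rfl⟩
  have hX : 32 * σ ^ 3 ≤ Λ := by
    rw [hΛ]
    unfold lam
    have : 128 * (K + 13) * (mm K s + K + 24) = 32 * (4 * (K + 13) * (mm K s + K + 24)) := by ring
    omega
  have hσΛ : σ ≤ Λ := by
    have := Nat.le_self_pow (n := 3) (by norm_num) σ
    omega
  have hdic : dic K s = 2 ^ (14 * Λ + 110) + (s + 1) ^ 2 := by rw [hΛ]; rfl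
  rw [hdic, ← hΛ]
  -- the blocks
  obtain ⟨Bl, hBl, hBlc⟩ : ∃ Bl : Finset (ℕ × List Bool),
      (∀ p, p ∈ Bl ↔ Sum.inl p ∈ E ∧ Lo (.inl p)) ∧ Bl.card ≤ 2 ^ σ := by
    refine ⟨(E.filter fun i => Lo i).toLeft, fun p => by simp, ?_⟩
    have a2 : (E.filter fun i => Lo i).card ≤ (E.filter fun i => Pool.Agent.H70.EI.key V ρ i ≤ σ).card :=
      Finset.card_le_card fun i hi => by
        rw [Finset.mem_filter] at hi ⊢
        exact ⟨hi.1, hLo i hi.1 hi.2⟩
    have a3 : 3 * (E.filter fun i => Pool.Agent.H70.EI.key V ρ i ≤ σ).card ≤ 2 ^ σ := by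
      convert h4 V W ρ hSep.rho E σ (by omega)
    exact (Finset.card_toLeft_le.trans a2).trans (by omega)
  have hlen : ∀ p ∈ Bl, (hm V p).length ≤ Λ := fun p hp => by
    have a1 := (hBl p).1 hp
    exact ((h1.2.2 V ρ p).2.2).trans (spc_cube (hLo _ a1.1 a1.2) (by omega) hX)
  -- the copy positions
  obtain ⟨A1, hA1, hA1c⟩ : ∃ A1 : Finset (List Bool),
      (∀ w, w ∈ A1 ↔ ∃ p ∈ Bl, ∃ (u : Fin (2 * (hm V p).length) → Bool)
        (v : Fin (qs (hm V p)) → Bool) (b : Bool), w = pos (hm V p) (List.ofFn u) (List.ofFn v) b) ∧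
      A1.card ≤ 2 ^ (14 * Λ + 110) := by
    refine ⟨Bl.biUnion fun p => (univ : Finset ((Fin (2 * (hm V p).length) → Bool) ×
      (Fin (qs (hm V p)) → Bool) × Bool)).image fun t =>
        pos (hm V p) (List.ofFn t.1) (List.ofFn t.2.1) t.2.2, fun w => ?_, ?_⟩
    · simp only [Finset.mem_biUnion, Finset.mem_image, Finset.mem_univ, true_and]
      constructor
      · rintro ⟨p, hp, t, rfl⟩
        exact ⟨p, hp, t.1, t.2.1, t.2.2, rfl⟩
      · rintro ⟨p, hp, u, v, b, rfl⟩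
        exact ⟨p, hp, (u, v, b), rfl⟩
    · refine (Finset.card_biUnion_le_card_mul _ _ (2 ^ (12 * Λ + 101)) fun p hp => ?_).trans ?_
      · refine Finset.card_image_le.trans ?_
        have a1 := hlen p hp
        rw [Finset.card_univ, Fintype.card_prod, Fintype.card_prod, Fintype.card_fun,
          Fintype.card_fun, Fintype.card_bool, Fintype.card_fin, Fintype.card_fin, ← pow_succ,
          ← pow_add]
        refine Nat.pow_le_pow_right (by norm_num) ?_
        simp only [qs]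
        omega
      · calc Bl.card * 2 ^ (12 * Λ + 101) ≤ 2 ^ σ * 2 ^ (12 * Λ + 101) :=
              Nat.mul_le_mul_right _ hBlc
          _ = 2 ^ (σ + (12 * Λ + 101)) := (pow_add _ _ _).symm
          _ ≤ 2 ^ (14 * Λ + 110) := Nat.pow_le_pow_right (by norm_num) (by omega)
  -- the tables
  have hnl : ∀ (b : ℕ) (x : Nn (2 ^ ρ b) ((W b).1 + 1)),
      (nstr (2 ^ ρ b) ((W b).1 + 1) x).length = (2 ^ ((W b).1 + 2) - 1) * 2 ^ ρ b :=
    fun b x => (h3 _ _).1 x
  obtain ⟨A2, hA2, hA2c⟩ : ∃ A2 : Finset (List Bool),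
      (∀ w, w ∈ A2 ↔ ∃ b ≤ a, Sum.inr b ∈ E ∧ ∃ x : Nn (2 ^ ρ b) ((W b).1 + 1),
        w = false :: nstr (2 ^ ρ b) ((W b).1 + 1) x) ∧ A2.card ≤ (s + 1) ^ 2 := by
    obtain ⟨A, hA, hAm⟩ := spc_strs (2 ^ ((W a).1 + 3) * 2 ^ ρ a + 1)
    refine ⟨A.filter fun w => ∃ b ≤ a, Sum.inr b ∈ E ∧ ∃ x : Nn (2 ^ ρ b) ((W b).1 + 1),
        w = false :: nstr (2 ^ ρ b) ((W b).1 + 1) x, fun w => ?_, ?_⟩
    · rw [Finset.mem_filter]
      refine ⟨fun h => h.2, fun h => ⟨hAm w ?_, h⟩⟩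
      obtain ⟨b, hb, -, x, rfl⟩ := h
      rw [List.length_cons, hnl]
      have a1 : (2 ^ ((W b).1 + 2) - 1) * 2 ^ ρ b ≤ 2 ^ ((W b).1 + 3) * 2 ^ ρ b :=
        Nat.mul_le_mul_right _ ((Nat.sub_le _ _).trans
          (Nat.pow_le_pow_right (by norm_num) (by omega)))
      rcases Nat.lt_or_ge b a with hlt | hge
      · have a2 := hSep.rho.sep b a hlt
        have a3 : 2 ^ ρ a ≤ 2 ^ ((W a).1 + 3) * 2 ^ ρ a :=
          Nat.le_mul_of_pos_left _ (by positivity)
        omega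
      · have : b = a := by omega
        subst this
        omega
    · have a1 : (A.filter fun w => ∃ b ≤ a, Sum.inr b ∈ E ∧ ∃ x : Nn (2 ^ ρ b) ((W b).1 + 1),
        w = false :: nstr (2 ^ ρ b) ((W b).1 + 1) x).card ≤ A.card := Finset.card_filter_le _ _
      have a2 : s ≤ (s + 1) ^ 2 := by nlinarith
      have a3 : 2 ^ ((W a).1 + 3) * 2 ^ ρ a + 1 + 1 = 2 ^ ((W a).1 + 3) * 2 ^ ρ a + 2 := rfl
      rw [a3] at hA
      omega
  -- the description
  have hDl : ((A1 ∪ A2).toList.map fun w => (w, O P (fun _ => false) w)).length ≤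
      2 ^ (14 * Λ + 110) + (s + 1) ^ 2 := by
    rw [List.length_map, Finset.length_toList]
    exact (Finset.card_union_le _ _).trans (Nat.add_le_add hA1c hA2c)
  refine ⟨⟨(A1 ∪ A2).toList.map fun w => (w, O P (fun _ => false) w),
    Bl.toList.map fun p => (hm V p, wln (hm V p), if h : Sum.inl p ∈ E then
      wt0 (qs (hm V p)) (rns (hm V p)) (wln (hm V p)) (κ (.inl p)) (P ⟨.inl p, h⟩ : CP V p).1
      else 0)⟩, ⟨hDl, ?_, ?_⟩, ?_⟩
  · show (Bl.toList.map _).length ≤ _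
    rw [List.length_map, Finset.length_toList]
    refine (hBlc.trans (Nat.pow_le_pow_right (by norm_num) ?_)).trans (Nat.le_add_right _ _)
    omega
  · intro c hc
    obtain ⟨p, hp, rfl⟩ := List.mem_map.1 hc
    show wln (hm V p) ≤ omg Λ
    rw [spc_wln]
    exact spc_omg (hlen p (Finset.mem_toList.1 hp))
  intro y w hw
  have hfD := spc_find (A1 ∪ A2).toList (O P fun _ => false) w
  -- positions of small blocks are not positions of other blocks
  have hnot : ∀ p ∈ Bl, ∀ (x : List Bool) (i : ℕ), w = code (hm V p) x i →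
      ¬ ∃ q, Sum.inl q ∈ E ∧ ¬ Lo (.inl q) ∧ BPos V q w := by
    rintro p hp x i hx ⟨q, hq, hqL, hqB⟩
    have := spc_uniq h1 h2 hx hqB
    subst this
    exact hqL ((hBl q).1 hp).2
  by_cases hD : w ∈ (A1 ∪ A2).toList
  · have hval : OC V W ρ E Lo O (cor V W ρ E Lo κ P y) (fun w => y w 0) w =
        O P (fun _ => false) w := by
      unfold OC
      rw [Finset.mem_toList, Finset.mem_union, hA1, hA2] at hD
      rcases hD with ⟨p, hp, u, v, b, rfl⟩ | ⟨b, -, hb, x, rfl⟩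
      · rw [if_neg (hnot p hp _ _ rfl)]
        exact spc_blk hO Lo κ P y _ _ ((hBl p).1 hp).1 u v b
      · rw [if_neg (by rintro ⟨q, -, -, hq⟩; exact spc_true h1 hq rfl)]
        exact spc_tab hO Lo κ P y _ _ hb x
    rw [hval]
    unfold OSp
    rw [(hfD _ fun c => decide_eq_true_iff).1 hD]
  · unfold OSp
    rw [(hfD _ fun c => decide_eq_true_iff).2 hD]
    rw [Finset.mem_toList, Finset.mem_union, hA1, hA2, not_or] at hD
    by_cases hQ : ∃ p ∈ Bl, ∃ z : Fin (wln (hm V p)) → Bool, w = wps (hm V p) (List.ofFn z)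
    · obtain ⟨p, hp, z, hz⟩ := hQ
      have hpE := (hBl p).1 hp
      rw [spc_some _ _ (hm V p, wln (hm V p), if h : Sum.inl p ∈ E then
          wt0 (qs (hm V p)) (rns (hm V p)) (wln (hm V p)) (κ (.inl p))
            (P ⟨.inl p, h⟩ : CP V p).1 else 0)
        (List.mem_map.2 ⟨p, Finset.mem_toList.2 hp, rfl⟩)
        (decide_eq_true ⟨List.ofFn z, by simp, hz⟩) ?_]
      · unfold OC
        rw [if_neg (hnot p hp _ _ hz), hz, spc_crs hO Lo κ P y _ hpE.1 hpE.2 z]
        simp only [dif_pos hpE.1]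
      · intro c hc hcq
        obtain ⟨q, hq, rfl⟩ := List.mem_map.1 hc
        obtain ⟨z', -, hz'⟩ := of_decide_eq_true hcq
        have h5 : hm V q = hm V p := (h2.1 _ _ _ _ _ _ (hz'.symm.trans hz)).1
        have h6 := h1.1 V q p h5
        subst h6
        rfl
    · have hnone : ∀ q : List Bool × ℕ × ℕ → Bool, (∀ c, q c = true ↔ IsW c.1 c.2.1 w) →
          (Bl.toList.map fun p => (hm V p, wln (hm V p), if h : Sum.inl p ∈ E then
            wt0 (qs (hm V p)) (rns (hm V p)) (wln (hm V p)) (κ (.inl p))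
              (P ⟨.inl p, h⟩ : CP V p).1 else 0)).find? q = none := by
        intro q hq
        refine List.find?_eq_none.2 fun c hc hcq => hQ ?_
        obtain ⟨p, hp, rfl⟩ := List.mem_map.1 hc
        obtain ⟨z, hzl, hz⟩ := (hq _).1 hcq
        refine ⟨p, Finset.mem_toList.1 hp, fun i => z.get (i.cast hzl.symm), ?_⟩
        rw [hz]
        congr 1
        refine List.ext_get (by simp [hzl]) fun i _ _ => by simp
      rw [hnone _ fun c => decide_eq_true_iff]
      show OC V W ρ E Lo O (cor V W ρ E Lo κ P y) (fun w => y w 0) w = y w 0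
      unfold OC
      split_ifs with hOC
      · rfl
      · refine hO.out w (fun p hp hB => ?_) (fun b hb x hx => ?_) _ _
        · by_cases hpL : Lo (.inl p)
          · rcases hB with ⟨u, v, b, hB⟩ | ⟨z, hB⟩
            · exact hD.1 ⟨p, (hBl p).2 ⟨hp, hpL⟩, u, v, b, hB⟩
            · exact hQ ⟨p, (hBl p).2 ⟨hp, hpL⟩, z, hB⟩
          · exact hOC ⟨p, hp, hpL, hB⟩
        · by_cases hba : b ≤ a
          · exact hD.2 ⟨b, hba, hb, x, hx⟩
          · rw [hx, List.length_cons, hnl] at hw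
            have a1 : 2 ^ ρ (a + 1) ≤ 2 ^ ρ b :=
              Nat.pow_le_pow_right (by norm_num) (hSep.rho.mono.monotone (by omega))
            have a2 : 1 * 2 ^ ρ b ≤ (2 ^ ((W b).1 + 2) - 1) * 2 ^ ρ b := by
              refine Nat.mul_le_mul_right _ ?_
              have : 2 ^ 1 ≤ 2 ^ ((W b).1 + 2) := Nat.pow_le_pow_right (by norm_num) (by omega)
              omega
            omega

end Pool.Agent.H59.OMN
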