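import Pool.Agent.H75.OM.TD

/-!
# The sizes of the tables and of the requirements
-/

set_option autoImplicit false

namespace Pool.Agent.H59.OMN

open Pool.Agent.H75.OM Pool.Agent.H70.EI

theorem stg_mm (k s : ℕ) (M : ℕ) (h : 2 ^ M ≤ s) : M ≤ mm k s := by
  unfold mm
  have h1 : 2 ^ M ≤ (k + 4) * (s + 2) ^ 4 := by
    calc 2 ^ M ≤ s := h
      _ ≤ (s + 2) ^ 4 := by
        calc s ≤ s + 2 := by omega
          _ = (s + 2) ^ 1 := (pow_one _).symm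
          _ ≤ (s + 2) ^ 4 := Nat.pow_le_pow_right (by omega) (by norm_num)
      _ ≤ (k + 4) * (s + 2) ^ 4 := Nat.le_mul_of_pos_left _ (by omega)
  have h2 := Nat.log_mono_right (b := 2) h1
  rw [Nat.log_pow (by norm_num)] at h2
  omega

/-- The size parameter. -/
theorem stg_sigma (k ρ : ℕ) : ∃ N0 : ℕ, ∀ s, N0 ≤ s → ∃ σ : ℕ, ρ < σ ∧ 20 * (k + 13) ≤ σ ∧
    (k + 13) * (mm k s + k + 24) ≤ σ ^ 3 ∧ σ ^ 3 ≤ 4 * (k + 13) * (mm k s + k + 24) := by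
  set M : ℕ := ρ + 1 + 20 * (k + 13) with hM
  refine ⟨2 ^ (M ^ 3), fun s hs => ?_⟩
  have hmm := stg_mm k s (M ^ 3) hs
  set X : ℕ := (k + 13) * (mm k s + k + 24) with hX
  have hMX : M ^ 3 ≤ X := by
    calc M ^ 3 ≤ mm k s + k + 24 := by omega
      _ ≤ (k + 13) * (mm k s + k + 24) := Nat.le_mul_of_pos_left _ (by omega)
  have hex : ∃ σ : ℕ, X ≤ σ ^ 3 := ⟨X, Nat.le_self_pow (by norm_num) X⟩
  classical
  obtain ⟨σ, hσ, hmin⟩ : ∃ σ : ℕ, X ≤ σ ^ 3 ∧ ∀ τ < σ, ¬ X ≤ τ ^ 3 :=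
    ⟨Nat.find hex, Nat.find_spec hex, fun τ h => Nat.find_min hex h⟩
  have hMσ : M ≤ σ := by
    by_contra hlt
    have : σ ^ 3 < M ^ 3 := Nat.pow_lt_pow_left (by omega) (by norm_num)
    omega
  have hσ3 : σ ^ 3 ≤ 4 * X := by
    obtain ⟨τ, rfl⟩ : ∃ τ, σ = τ + 1 := ⟨σ - 1, by omega⟩
    have h1 := hmin τ (by omega)
    have h2 : 2 ≤ τ := by omega
    obtain ⟨υ, rfl⟩ : ∃ υ, τ = υ + 2 := ⟨τ - 2, by omega⟩
    have h3 : 4 * (υ + 2) ^ 3 = (υ + 2 + 1) ^ 3 + (3 * υ ^ 3 + 15 * υ ^ 2 + 21 * υ + 5) := by ring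
    omega
  refine ⟨σ, by omega, (hM ▸ Nat.le_add_left _ _ : 20 * (k + 13) ≤ M).trans hMσ, hσ, ?_⟩
  rw [mul_assoc]
  exact hσ3

/-- A large input length without circuits. -/
theorem stg_hard (h2 : T_FNC) (k i e : ℕ) (S : ℕ → ℕ → ℕ) (L : Set (List Bool)) (N0 : ℕ)
    (H : ∀ c, ∃ n, ¬ HasP k n (S i n ^ e + c) L) : ∃ n, N0 ≤ n ∧ ¬ HasP k n (S i n ^ e) L := by
  choose c hc using fun n => h2.1 k n L
  obtain ⟨n, hn⟩ := H (∑ m ∈ Finset.range (N0 + 1), c m)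
  refine ⟨n, ?_, fun h => hn (h2.2 k n _ _ L (Nat.le_add_right _ _) h)⟩
  by_contra hlt
  refine hn (h2.2 k n _ _ L ?_ (hc n))
  have : c n ≤ ∑ m ∈ Finset.range (N0 + 1), c m :=
    Finset.single_le_sum (f := c) (fun _ _ => Nat.zero_le _) (Finset.mem_range.2 (by omega))
  omega

/-- The conditions on one stage. -/
structure Stage (e s₀ : ℕ → ℕ) (S : ℕ → ℕ → ℕ) (L : ℕ → Set (List Bool)) (w : Hm)
    (t : ℕ × ℕ × ℕ) (ρ : ℕ) (R : Rq) : Prop where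
  small : w.2.c + w.1 + 30 ≤ ρ
  ok : TabOK w.1 w.2.c (2 ^ ρ)
  lo : ρ < R.σ
  tiny : 2 ^ (2 ^ (w.1 + 3) * 2 ^ ρ + 2) ≤ R.n
  ns : R.n ≤ R.s
  big : s₀ R.k ≤ R.s
  s1 : 20 * (R.k + 13) ≤ R.σ
  s2 : (R.k + 13) * (mm R.k R.s + R.k + 24) ≤ R.σ ^ 3
  s3 : R.σ ^ 3 ≤ 4 * (R.k + 13) * (mm R.k R.s + R.k + 24)
  hard : R.act → ¬ HasP R.k R.n (R.s ^ e R.k) R.L
  task : (∀ c, ∃ n, ¬ HasP t.2.2 n (S t.1 n ^ e t.2.2 + c) (L t.2.1)) →
    R.act ∧ R.k = t.2.2 ∧ R.s = S t.1 R.n ∧ R.L = L t.2.1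

theorem stg_stage (h1 : T_TBN) (h2 : T_FNC) (e s₀ : ℕ → ℕ) (S : ℕ → ℕ → ℕ)
    (L : ℕ → Set (List Bool)) (hS : ∀ i n, n ≤ S i n) (w : Hm) (t : ℕ × ℕ × ℕ) (B : ℕ) :
    ∃ p : ℕ × Rq, B ≤ p.1 ∧ Stage e s₀ S L w t p.1 p.2 := by
  obtain ⟨N, hN⟩ := Filter.eventually_atTop.1 (h1 w.1 w.2.c)
  obtain ⟨i, j, k⟩ := t
  set ρ : ℕ := B + N + (w.2.c + w.1 + 30) with hρ
  have hok : TabOK w.1 w.2.c (2 ^ ρ) := hN _ ((by omega : N ≤ ρ).trans Nat.lt_two_pow_self.le)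
  obtain ⟨N1, hN1⟩ := stg_sigma k ρ
  obtain ⟨Z, hZ⟩ : ∃ Z : ℕ, Z = 2 ^ (2 ^ (w.1 + 3) * 2 ^ ρ + 2) := ⟨_, rfl⟩
  set N0 : ℕ := N1 + Z + s₀ k with hN0
  by_cases H : ∀ c, ∃ n, ¬ HasP k n (S i n ^ e k + c) (L j)
  · obtain ⟨n, hn, hh⟩ := stg_hard h2 k i (e k) S (L j) N0 H
    have hs := hS i n
    obtain ⟨σ, a1, a2, a3, a4⟩ := hN1 (S i n) (by omega)
    exact ⟨(ρ, ⟨k, n, S i n, σ, L j, True⟩), by show B ≤ ρ; omega,
      { small := by show w.2.c + w.1 + 30 ≤ ρ; omega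
        ok := hok
        lo := a1
        tiny := by show 2 ^ (2 ^ (w.1 + 3) * 2 ^ ρ + 2) ≤ n; rw [← hZ]; omega
        ns := hs
        big := by show s₀ k ≤ S i n; omega
        s1 := a2
        s2 := a3
        s3 := a4
        hard := fun _ => hh
        task := fun _ => ⟨trivial, rfl, rfl, rfl⟩ }⟩
  · obtain ⟨σ, a1, a2, a3, a4⟩ := hN1 N0 (by omega)
    exact ⟨(ρ, ⟨k, N0, N0, σ, L j, False⟩), by show B ≤ ρ; omega,
      { small := by show w.2.c + w.1 + 30 ≤ ρ; omega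
        ok := hok
        lo := a1
        tiny := by show 2 ^ (2 ^ (w.1 + 3) * 2 ^ ρ + 2) ≤ N0; rw [← hZ]; omega
        ns := le_rfl
        big := by show s₀ k ≤ N0; omega
        s1 := a2
        s2 := a3
        s3 := a4
        hard := fun h => h.elim
        task := fun h => (H h).elim }⟩

/-- The bound for the next stage. -/
def nxt (w : Hm) (p : ℕ × Rq) : ℕ :=
  p.2.σ + p.2.s + mm p.2.k p.2.s + p.2.k + 12 +
    ((2 ^ p.1) ^ w.2.c + w.2.c + 2 ^ (w.1 + 3) * 2 ^ p.1 + 1) + p.1 + 1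

theorem pf_STG (h1 : Pool.Agent.H70.EI.T_TBN) (h2 : T_FNC) : T_STG := by
  intro e s₀ W S L T hS
  choose f hfB hfS using fun (a B : ℕ) => stg_stage h1 h2 e s₀ S L hS (W a) (T a) B
  let Bd : ℕ → ℕ := fun a => Nat.rec 0 (fun a B => nxt (W a) (f a B)) a
  have hB : ∀ a, Bd (a + 1) = nxt (W a) (f a (Bd a)) := fun a => rfl
  let ρ : ℕ → ℕ := fun a => (f a (Bd a)).1
  let R : ℕ → Rq := fun a => (f a (Bd a)).2
  have hst : ∀ a, Stage e s₀ S L (W a) (T a) (ρ a) (R a) := fun a => hfS a (Bd a)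
  have hge : ∀ a, nxt (W a) (ρ a, R a) ≤ ρ (a + 1) := fun a => by
    have := hfB (a + 1) (Bd (a + 1))
    rw [hB a] at this
    exact this
  have hmono : StrictMono ρ := strictMono_nat_of_lt_succ fun a => by
    have := hge a
    simp only [nxt] at this
    omega
  have hgb : ∀ a b, a < b → nxt (W a) (ρ a, R a) ≤ ρ b := fun a b hab =>
    (hge a).trans (hmono.monotone hab)
  refine ⟨ρ, R, ⟨⟨hmono, fun a => (hst a).small, ?_, fun a => (hst a).ok⟩,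
    fun a => (hst a).lo, ?_, fun a => (hst a).tiny, fun a => (hst a).ns, fun a => (hst a).big,
    fun a => (hst a).s1, fun a => (hst a).s2, fun a => (hst a).s3, ?_,
    fun a => (hst a).hard⟩, ?_⟩
  · intro a b hab
    have h3 := hgb a b hab
    simp only [nxt] at h3
    have h4 : ρ b < 2 ^ ρ b := Nat.lt_two_pow_self
    omega
  · intro a
    have h3 := hge a
    simp only [nxt] at h3
    have h4 : ρ (a + 1) < 2 ^ ρ (a + 1) := Nat.lt_two_pow_self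
    exact ⟨by omega, by omega⟩
  · intro a b hba
    have h3 := hgb b a hba
    simp only [nxt] at h3
    have h4 := (hst a).lo
    have h5 : (R a).σ ≤ (R a).σ ^ 2 := Nat.le_self_pow (by norm_num) _
    exact ⟨by omega, by omega⟩
  · intro a i j k hT H
    have h3 := (hst a).task
    rw [hT] at h3
    exact h3 H

end Pool.Agent.H59.OMN
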